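import Pool.Agent.Helper19K9.Fb.Ae

/-!
# Vojta's inequality with truncated counting function on `ℙ¹ × ℙ¹` over `ℚ` for all but finitely many
# pairs of good approximations of almost every real point

Let `D = D_1 + … + D_ℓ` be a reduced divisor on `ℙ¹ × ℙ¹` over `ℚ` with the irreducible components
`D_j = {F_j = 0}` of bidegrees `(a_j, b_j)`, and let `(q, r) = (∑ a_j, ∑ b_j)` be its bidegree. Put
`gain a b s = (a + b s) / max 1 ⌊(a + b s) / 2⌋` for `a ≥ 1` and `gain 0 b s = 0`. Let `Λ > 0` and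
`κ₁, κ₂` be such that `(q - κ₁) + (r - κ₂) s ≤ ∑ gain a_j b_j s` for `0 ≤ s ≤ Λ` and
`(q - κ₁) s + (r - κ₂) ≤ ∑ gain b_j a_j s` for `0 ≤ s ≤ 1 / Λ`.

There are finite sets `Z₁, Z₂ ⊂ ℙ¹(ℚ)` and `δ(ε) > 0` such that for almost every `(ξ, η) ∈ ℝ ^ 2`, for
all `ε > 0`, all `A` and all real `c`, only finitely many of the rational points `(α, β)` outside the
closed subset `Z₁ × ℙ¹ ∪ ℙ¹ × Z₂`, of arbitrary heights, with
`|ξ - α| ≤ A H(α) ^ (-2 + δ(ε))` and `|η - β| ≤ A H(β) ^ (-2 + δ(ε))`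
lie on `D` or satisfy `N_D^{(1)}(α, β) < (q - κ₁ - ε) h(α) + (r - κ₂ - ε) h(β) - c`.

For `κ₁ = κ₂ = 2` this is the inequality of the conjecture. All pairs of convergents `α` of `ξ` and
`β` of `η` are among the `(α, β)`, if `A ≥ (|ξ| + 1) ^ 2` and `A ≥ (|η| + 1) ^ 2`.
-/

set_option autoImplicit false

namespace Pool.Agent.Results.MP_542436_nt.AlmostEveryPoint

open MvPolynomial MeasureTheory

/-- Normalised coprime integer coordinates: each point `[x₀ : x₁]` of the projective line over `ℚ`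
has exactly one such pair. -/
def Coord (x : ℤ × ℤ) : Prop := IsCoprime x.1 x.2 ∧ (0 < x.2 ∨ x.2 = 0 ∧ 0 < x.1)

/-- the height `max (|x₀|, |x₁|)` -/
def absHeight (x : ℤ × ℤ) : ℕ := max x.1.natAbs x.2.natAbs

/-- the logarithmic height -/
noncomputable def height (x : ℤ × ℤ) : ℝ := Real.log (absHeight x)

/-- `F` is bihomogeneous of bidegree `(a, b)` in `(X_0, X_1; X_2, X_3)` -/
def IsBihomogeneous (F : MvPolynomial (Fin 4) ℤ) (a b : ℕ) : Prop :=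
  F.IsWeightedHomogeneous (![1, 1, 0, 0] : Fin 4 → ℕ) a ∧
    F.IsWeightedHomogeneous (![0, 0, 1, 1] : Fin 4 → ℕ) b

/-- the polynomial over the field of rational numbers -/
noncomputable def overQ (F : MvPolynomial (Fin 4) ℤ) : MvPolynomial (Fin 4) ℚ :=
  F.map (Int.castRingHom ℚ)

/-- the value of `F` at the coordinates of the pair `(α, β)` of points -/
noncomputable def value (F : MvPolynomial (Fin 4) ℤ) (α β : ℤ × ℤ) : ℤ :=
  eval ![α.1, α.2, β.1, β.2] F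

/-- The truncated counting function `N_D^{(1)}(α, β)` of `D = ∑ {F_j = 0}`, without the primes of
`S`: the local height of `D` at `p` is `v_p (∏ F_j (α, β)) log p`, so that `min (log p, ·)` of it is
`log p` for the primes dividing `∏ F_j (α, β)`, and zero for the other ones. -/
noncomputable def truncated {ℓ : ℕ} (S : Finset ℕ) (F : Fin ℓ → MvPolynomial (Fin 4) ℤ)
    (α β : ℤ × ℤ) : ℝ :=
  ∑ p ∈ (∏ j, value (F j) α β).natAbs.primeFactors \ S, Real.log (p : ℝ)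

/-- `(a + b s) / max 1 ⌊(a + b s) / 2⌋`, and `0` if `a = 0` -/
noncomputable def gain (a b : ℕ) (s : ℝ) : ℝ :=
  if a = 0 then 0 else ((a : ℝ) + b * s) / (max 1 ⌊((a : ℝ) + b * s) / 2⌋₊ : ℕ)

/-- `α` is a rational number with `|ξ - α| ≤ A H(α) ^ (-2 + δ)` -/
def Near (A δ ξ : ℝ) (α : ℤ × ℤ) : Prop :=
  α.2 ≠ 0 ∧ |ξ - (α.1 : ℝ) / α.2| ≤ A * (absHeight α : ℝ) ^ (-2 + δ)

/-- the pairs `(α, β)` outside `Z₁ × ℙ¹ ∪ ℙ¹ × Z₂`, near `P = (ξ, η)` with exponents `2 - δ`, which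
are on `D` or satisfy `N_D^{(1)}(α, β) < (∑ a_j - κ₁) h(α) + (∑ b_j - κ₂) h(β) - c` -/
def Exceptions {ℓ : ℕ} (S : Finset ℕ) (F : Fin ℓ → MvPolynomial (Fin 4) ℤ) (a b : Fin ℓ → ℕ)
    (κ₁ κ₂ c A δ : ℝ) (Z₁ Z₂ : Set (ℤ × ℤ)) (P : ℝ × ℝ) : Set ((ℤ × ℤ) × (ℤ × ℤ)) :=
  {q | Coord q.1 ∧ Coord q.2 ∧ q.1 ∉ Z₁ ∧ q.2 ∉ Z₂ ∧ Near A δ P.1 q.1 ∧
    Near A δ P.2 q.2 ∧
    ((∃ j, value (F j) q.1 q.2 = 0) ∨
      truncated S F q.1 q.2 < ((∑ j, (a j : ℝ)) - κ₁) * height q.1 +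
        ((∑ j, (b j : ℝ)) - κ₂) * height q.2 - c)}

/-- **Vojta's inequality with truncated counting function on `ℙ¹ × ℙ¹`: for almost every real point
`(ξ, η)` there are only finitely many exceptions among the pairs of good approximations, outside a
closed subset.** -/
theorem result {ℓ : ℕ} (F : Fin ℓ → MvPolynomial (Fin 4) ℤ) (a b : Fin ℓ → ℕ)
    (hbi : ∀ j, IsBihomogeneous (F j) (a j) (b j)) (hirr : ∀ j, Irreducible (overQ (F j)))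
    (hdist : ∀ i j, i ≠ j → ¬ Associated (overQ (F i)) (overQ (F j))) (S : Finset ℕ)
    (Λ : ℝ) (hΛ : 0 < Λ) (κ₁ κ₂ : ℝ)
    (hκ : ∀ s : ℝ, 0 ≤ s → s ≤ Λ → ((∑ j, (a j : ℝ)) - κ₁) + ((∑ j, (b j : ℝ)) - κ₂) * s ≤
      ∑ j, gain (a j) (b j) s)
    (hκ' : ∀ s : ℝ, 0 ≤ s → s ≤ 1 / Λ → ((∑ j, (a j : ℝ)) - κ₁) * s + ((∑ j, (b j : ℝ)) - κ₂) ≤
      ∑ j, gain (b j) (a j) s) :
    ∃ Z₁ Z₂ : Set (ℤ × ℤ), Z₁.Finite ∧ Z₂.Finite ∧ ∃ δ : ℝ → ℝ, (∀ ε, 0 < ε → 0 < δ ε) ∧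
      ∀ᵐ P : ℝ × ℝ, ∀ ε : ℝ, 0 < ε → ∀ A c : ℝ,
        (Exceptions S F a b (κ₁ + ε) (κ₂ + ε) c A (δ ε) Z₁ Z₂ P).Finite := by
  classical
  obtain ⟨Z₁, Z₂, hZ₁, hZ₂, δ, hδ, h⟩ := Pool.Agent.Helper19K9.Fb.main_ae F a b hbi hirr hdist S Λ
    hΛ κ₁ κ₂ hκ hκ'
  refine ⟨Z₁, Z₂, hZ₁, hZ₂, fun ε => δ (ε / 2), fun ε hε => hδ _ (by linarith), ?_⟩
  filter_upwards [h] with P hP ε hε A c
  have hfin := hP (ε / 2) A (by linarith)
  -- the pairs of small height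
  set N : ℕ := ⌈Real.exp (2 * |c| / ε)⌉₊ with hN
  have hsmall : {q : (ℤ × ℤ) × (ℤ × ℤ) | Pool.Agent.Helper19K9.Fb.ht q.1 ≤ N ∧
      Pool.Agent.Helper19K9.Fb.ht q.2 ≤ N}.Finite := by
    refine (((Pool.Agent.Helper19K9.Fb.bx N) ×ˢ (Pool.Agent.Helper19K9.Fb.bx N) :
      Finset ((ℤ × ℤ) × (ℤ × ℤ))).finite_toSet).subset ?_
    rintro q ⟨h1, h2⟩
    rw [Finset.mem_coe, Finset.mem_product, Pool.Agent.Helper19K9.Fb.mem_bx,
      Pool.Agent.Helper19K9.Fb.mem_bx]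
    exact ⟨h1, h2⟩
  refine (hfin.union hsmall).subset ?_
  rintro q ⟨h1, h2, h3, h4, h5, h6, h7⟩
  have hx : 0 ≤ height q.1 := Pool.Agent.Helper19K9.Fb.nonneg_of_htlog h1.1
  have hy : 0 ≤ height q.2 := Pool.Agent.Helper19K9.Fb.nonneg_of_htlog h2.1
  by_cases hcase : |c| ≤ ε / 2 * (height q.1 + height q.2)
  · refine Or.inl ⟨h1.1, h2.1, h3, h4, ?_, h5, h6⟩
    rcases h7 with h8 | h8
    · exact Or.inl h8
    · refine Or.inr (lt_of_lt_of_le h8 ?_)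
      have e1 : height q.1 = Real.log (Pool.Agent.Helper19K9.Fb.ht q.1 : ℝ) := rfl
      have e2 : height q.2 = Real.log (Pool.Agent.Helper19K9.Fb.ht q.2 : ℝ) := rfl
      rw [← e1, ← e2]
      have := neg_abs_le c
      nlinarith
  · refine Or.inr ?_
    push Not at hcase
    have hsum : height q.1 + height q.2 < 2 * |c| / ε := by
      rw [lt_div_iff₀ hε]
      linarith
    have aux : ∀ x : ℤ × ℤ, Coord x → height x < 2 * |c| / ε →
        Pool.Agent.Helper19K9.Fb.ht x ≤ N := by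
      intro x hx hlt
      have hpos : (0 : ℝ) < (Pool.Agent.Helper19K9.Fb.ht x : ℝ) := by
        exact_mod_cast Pool.Agent.Helper19K9.Fb.ht_pos hx.1
      have h9 : (Pool.Agent.Helper19K9.Fb.ht x : ℝ) ≤ Real.exp (2 * |c| / ε) := by
        rw [← Real.exp_log hpos]
        exact Real.exp_le_exp.2 hlt.le
      exact_mod_cast h9.trans (Nat.le_ceil _)
    exact ⟨aux q.1 h1 (by linarith), aux q.2 h2 (by linarith)⟩

end Pool.Agent.Results.MP_542436_nt.AlmostEveryPoint
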