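import Pool.Agent.Helper19K9.Tf.Fmain

/-!
# Vojta's inequality with truncated counting function on `ℙ¹ × ℙ¹` over `ℚ` at almost all points of
# every fibre outside a finite set

Let `D = D_1 + … + D_ℓ` be a reduced divisor on `ℙ¹ × ℙ¹` over `ℚ` with the irreducible components
`D_j = {F_j = 0}` of bidegrees `(a_j, b_j)`, and let `(q, r) = (∑ a_j, ∑ b_j)` be its bidegree. For
`a ≥ 1` put `gain a b s = a + b s` if `a + b s ≤ 4` (no loss) and
`gain a b s = (a + b s) / max 1 ⌊(a + b s) / 2⌋` otherwise, and `gain 0 b s = 0`. Let `Λ > 0` and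
`κ₁, κ₂` be such that `(q - κ₁) + (r - κ₂) s ≤ ∑ gain a_j b_j s` for all `s ∈ [0, Λ]`.

There is a finite set `Z ⊂ ℙ¹(ℚ)`, and for every `ε > 0` there are `c > 0` and `C`, such that for
EVERY `β ∈ ℙ¹(ℚ)` outside `Z` and every `B ≥ H(β) ^ (1 / Λ)`, of the about `B ^ 2` points `α` of
height at most `B` all but at most `C B ^ (2 - c)` satisfy: `(α, β)` is off `D` and
`N_D^{(1)}(α, β) ≥ (q - κ₁ - ε) h(α) + (r - κ₂ - ε) h(β)`, the primes of `S` being omitted.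

For `κ₁ = κ₂ = 2` this is the inequality of the conjecture; for any number of components with `a_j ≥ 1`
and `a_j + b_j ≤ 4` it holds with `Λ = 1`, even with `κ₁ = κ₂ = 0`: the truncated counting function is the
full height. (For `a_j + b_j = 4` the values `F_j(α, β) = v t²` with small `v` are counted by Stepanov's
method and the larger sieve, uniformly in `β`.)
-/

set_option autoImplicit false

namespace Pool.Agent.Results.MP_542436_nt.EveryFibre

open MvPolynomial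

/-- Normalised coprime integer coordinates: each point `[x₀ : x₁]` of the projective line over `ℚ`
has exactly one such pair. -/
def Coord (x : ℤ × ℤ) : Prop := IsCoprime x.1 x.2 ∧ (0 < x.2 ∨ x.2 = 0 ∧ 0 < x.1)

/-- the logarithmic height `log max (|x₀|, |x₁|)` -/
noncomputable def height (x : ℤ × ℤ) : ℝ := Real.log (max x.1.natAbs x.2.natAbs : ℕ)

/-- `F` is bihomogeneous of bidegree `(a, b)` in `(X_0, X_1; X_2, X_3)` -/
def IsBihomogeneous (F : MvPolynomial (Fin 4) ℤ) (a b : ℕ) : Prop :=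
  F.IsWeightedHomogeneous (![1, 1, 0, 0] : Fin 4 → ℕ) a ∧
    F.IsWeightedHomogeneous (![0, 0, 1, 1] : Fin 4 → ℕ) b

/-- the polynomial over the field of rational numbers -/
noncomputable def overQ (F : MvPolynomial (Fin 4) ℤ) : MvPolynomial (Fin 4) ℚ :=
  F.map (Int.castRingHom ℚ)

/-- the value of `F` at the coordinates of the pair `(α, β)` of points -/
noncomputable def value (F : MvPolynomial (Fin 4) ℤ) (α β : ℤ × ℤ) : ℤ :=
  eval ![α.1, α.2, β.1, β.2] F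

/-- The truncated counting function `N_D^{(1)}(α, β)` of `D = ∑ {F_j = 0}`, without the primes of
`S`: the local height of `D` at `p` is `v_p (∏ F_j (α, β)) log p`, so that `min (log p, ·)` of it is
`log p` for the primes dividing `∏ F_j (α, β)`, and zero for the other ones. -/
noncomputable def truncated {ℓ : ℕ} (S : Finset ℕ) (F : Fin ℓ → MvPolynomial (Fin 4) ℤ)
    (α β : ℤ × ℤ) : ℝ :=
  ∑ p ∈ (∏ j, value (F j) α β).natAbs.primeFactors \ S, Real.log (p : ℝ)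

/-- `0` if `a = 0`; otherwise `a + b s` if `a + b s ≤ 4`, and `(a + b s) / max 1 ⌊(a + b s) / 2⌋` if
`a + b s > 4` -/
noncomputable def gain (a b : ℕ) (s : ℝ) : ℝ :=
  if a = 0 then 0 else if (a : ℝ) + b * s ≤ 4 then (a : ℝ) + b * s else
    ((a : ℝ) + b * s) / (max 1 ⌊((a : ℝ) + b * s) / 2⌋₊ : ℕ)

/-- the points `α` of height at most `log B` for which `(α, β)` lies on `D` or
`N_D^{(1)}(α, β) ≥ (∑ a_j - κ₁) h(α) + (∑ b_j - κ₂) h(β)` fails -/
def Exceptions {ℓ : ℕ} (S : Finset ℕ) (F : Fin ℓ → MvPolynomial (Fin 4) ℤ) (a b : Fin ℓ → ℕ)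
    (κ₁ κ₂ B : ℝ) (β : ℤ × ℤ) : Set (ℤ × ℤ) :=
  {α | Coord α ∧ height α ≤ Real.log B ∧
    ((∃ j, value (F j) α β = 0) ∨
      truncated S F α β < ((∑ j, (a j : ℝ)) - κ₁) * height α +
        ((∑ j, (b j : ℝ)) - κ₂) * height β)}

/-- **Vojta's inequality with truncated counting function on `ℙ¹ × ℙ¹` at almost all rational points
of every fibre outside a finite set, uniformly in the fibre.** -/
theorem result {ℓ : ℕ} (F : Fin ℓ → MvPolynomial (Fin 4) ℤ) (a b : Fin ℓ → ℕ)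
    (hbi : ∀ j, IsBihomogeneous (F j) (a j) (b j)) (hirr : ∀ j, Irreducible (overQ (F j)))
    (hdist : ∀ i j, i ≠ j → ¬ Associated (overQ (F i)) (overQ (F j))) (S : Finset ℕ)
    (Λ : ℝ) (hΛ : 0 < Λ) (κ₁ κ₂ : ℝ)
    (hκ : ∀ s : ℝ, 0 ≤ s → s ≤ Λ → ((∑ j, (a j : ℝ)) - κ₁) + ((∑ j, (b j : ℝ)) - κ₂) * s ≤
      ∑ j, gain (a j) (b j) s) :
    ∃ Z : Set (ℤ × ℤ), Z.Finite ∧ ∀ ε : ℝ, 0 < ε → ∃ c C : ℝ, 0 < c ∧
      ∀ β : ℤ × ℤ, Coord β → β ∉ Z → ∀ B : ℝ, 1 ≤ B → height β ≤ Λ * Real.log B →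
        (Exceptions S F a b (κ₁ + ε) (κ₂ + ε) B β).Finite ∧
        ((Exceptions S F a b (κ₁ + ε) (κ₂ + ε) B β).ncard : ℝ) ≤ C * B ^ ((2 : ℝ) - c) := by
  classical
  obtain ⟨Z, hZ, h⟩ := Pool.Agent.Helper19K9.Tf.main_fib4 F a b hbi hirr hdist S Λ hΛ κ₁ κ₂ hκ
  refine ⟨Z, hZ, fun ε hε => ?_⟩
  obtain ⟨c, hc, C, hC, h⟩ := h ε hε
  refine ⟨min c 2, 4 * C, lt_min hc (by norm_num), fun β hβ hβZ B hB hβB => ?_⟩
  have hB0 : 0 < B := by linarith
  set N : ℕ := ⌈B⌉₊ with hN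
  have hBN : B ≤ N := Nat.le_ceil B
  have hN1' : (1 : ℝ) ≤ N := by linarith
  have hN1 : 1 ≤ N := by exact_mod_cast hN1'
  have hN2 : (N : ℝ) ≤ 2 * B := by
    have := Nat.ceil_lt_add_one hB0.le
    linarith
  have hpos : ∀ x : ℤ × ℤ, Coord x → 1 ≤ max x.1.natAbs x.2.natAbs := fun x hx =>
    Pool.Agent.Helper19K9.Fb.ht_pos hx.1
  -- the point `β`
  have hy : (Pool.Agent.Helper19K9.Fb.ht β : ℝ) ≤ (N : ℝ) ^ Λ := by
    have h1 : (0 : ℝ) < (Pool.Agent.Helper19K9.Fb.ht β : ℝ) := by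
      exact_mod_cast hpos β hβ
    have h2 : Real.log (Pool.Agent.Helper19K9.Fb.ht β : ℝ) ≤ Λ * Real.log B := hβB
    have h3 : (Pool.Agent.Helper19K9.Fb.ht β : ℝ) ≤ B ^ Λ := by
      rw [← Real.exp_log h1, Real.rpow_def_of_pos hB0, mul_comm (Real.log B)]
      exact Real.exp_le_exp.2 h2
    exact h3.trans (Real.rpow_le_rpow hB0.le hBN hΛ.le)
  have hcount := h N hN1 β ⟨hβ.1, hβZ⟩ hy
  have hsub : Exceptions S F a b (κ₁ + ε) (κ₂ + ε) B β ⊆ Pool.Agent.Helper19K9.Fb.fset N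
      (fun x => (∃ j, Pool.Agent.Helper19K9.Fb.val (F j) x β = 0) ∨
        ∑ p ∈ (∏ j, Pool.Agent.Helper19K9.Fb.val (F j) x β).natAbs.primeFactors \ S,
          Real.log (p : ℝ) <
          ((∑ j, (a j : ℝ)) - κ₁ - ε) * Real.log (Pool.Agent.Helper19K9.Fb.ht x) +
          ((∑ j, (b j : ℝ)) - κ₂ - ε) * Real.log (Pool.Agent.Helper19K9.Fb.ht β)) := by
    rintro x ⟨hx, hxB, hbad⟩
    refine ⟨?_, hx.1, ?_⟩
    · have h1 : (0 : ℝ) < (Pool.Agent.Helper19K9.Fb.ht x : ℝ) := by exact_mod_cast hpos x hx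
      have h2 : (Pool.Agent.Helper19K9.Fb.ht x : ℝ) ≤ B := (Real.log_le_log_iff h1 hB0).1 hxB
      exact_mod_cast h2.trans hBN
    · rcases hbad with h1 | h1
      · exact Or.inl h1
      · refine Or.inr ?_
        rw [← sub_sub, ← sub_sub] at h1
        exact h1
  have hfin := Pool.Agent.Helper19K9.Fb.fset_finite N
      (fun x => (∃ j, Pool.Agent.Helper19K9.Fb.val (F j) x β = 0) ∨
        ∑ p ∈ (∏ j, Pool.Agent.Helper19K9.Fb.val (F j) x β).natAbs.primeFactors \ S,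
          Real.log (p : ℝ) <
          ((∑ j, (a j : ℝ)) - κ₁ - ε) * Real.log (Pool.Agent.Helper19K9.Fb.ht x) +
          ((∑ j, (b j : ℝ)) - κ₂ - ε) * Real.log (Pool.Agent.Helper19K9.Fb.ht β))
  refine ⟨hfin.subset hsub, ?_⟩
  have h1 : ((Exceptions S F a b (κ₁ + ε) (κ₂ + ε) B β).ncard : ℝ) ≤
      C * (N : ℝ) ^ ((2 : ℝ) - c) := by
    refine le_trans ?_ hcount
    exact_mod_cast Set.ncard_le_ncard hsub hfin
  refine h1.trans ?_
  have h2 : (N : ℝ) ^ ((2 : ℝ) - c) ≤ (N : ℝ) ^ ((2 : ℝ) - min c 2) := by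
    refine Real.rpow_le_rpow_of_exponent_le hN1' ?_
    have := min_le_left c 2
    linarith
  have h3 : (0 : ℝ) ≤ (2 : ℝ) - min c 2 := by
    have := min_le_right c 2
    linarith
  have h4 : (N : ℝ) ^ ((2 : ℝ) - min c 2) ≤ (2 * B) ^ ((2 : ℝ) - min c 2) :=
    Real.rpow_le_rpow (by linarith) hN2 h3
  have h5 : ((2 : ℝ) * B) ^ ((2 : ℝ) - min c 2) ≤ 4 * B ^ ((2 : ℝ) - min c 2) := by
    rw [Real.mul_rpow (by norm_num) hB0.le]
    refine mul_le_mul_of_nonneg_right ?_ (by positivity)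
    calc (2 : ℝ) ^ ((2 : ℝ) - min c 2) ≤ (2 : ℝ) ^ (2 : ℝ) := by
          refine Real.rpow_le_rpow_of_exponent_le (by norm_num) ?_
          have : 0 < min c 2 := lt_min hc (by norm_num)
          linarith
      _ = 4 := by norm_num
  calc C * (N : ℝ) ^ ((2 : ℝ) - c) ≤ C * (4 * B ^ ((2 : ℝ) - min c 2)) :=
        mul_le_mul_of_nonneg_left (h2.trans (h4.trans h5)) hC.le
    _ = 4 * C * B ^ ((2 : ℝ) - min c 2) := by ring

end Pool.Agent.Results.MP_542436_nt.EveryFibre
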