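import Pool.Agent.Helper19K9.Tf.Main

/-!
# Vojta's inequality with truncated counting function on `ℙ¹ × ℙ¹` over `ℚ`: no loss for components of
total degree at most four

Let `D = D_1 + … + D_ℓ` be a reduced divisor on `ℙ¹ × ℙ¹` over `ℚ` with the irreducible components
`D_j = {F_j = 0}` of bidegrees `(a_j, b_j)` with `a_j + b_j ≤ 4`, and let `(q, r) = (∑ a_j, ∑ b_j)` be its
bidegree. For every `ε > 0`, of the about `B ^ 4` pairs `(α, β)` of rational points with
`h(α), h(β) ≤ log B`, all but at most `C B ^ (4 - c)` are off `D` and satisfy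
`N_D^{(1)}(α, β) ≥ (q - ε) h(α) + (r - ε) h(β)`, the primes of the finite set `S` being omitted: the
truncated counting function is equal to the full height, up to `ε (h(α) + h(β))`. The inequality of the
conjecture asks for `(q - 2 - ε) h(α) + (r - 2 - ε) h(β)` only. The number of components is arbitrary, and
they may be of type `(2, 2)` (the curves of genus one), `(1, 3)`, `(3, 1)`, `(4, 0)` and `(0, 4)`.

Proof. If `F = F_j` has bidegree `(a, b)` with `a + b = 4`, and the radical of `F(α, β)` is much smaller than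
`B ^ 4`, then after discarding few pairs (`PowerfulDivisors`) the powerful divisors of the part of
`F(α, β)` prime to `∂F` are very small or larger than `B ^ (4 - c)`, and then `F(α, β) = v t²` with
`0 < |v| ≤ B ^ c'`. These pairs are few. We may suppose that `F` has degree `1`, `2` or `4` in one of the
coordinates, `y`. For given `v` and given other coordinates, off the zeros of a discriminant, `y` is
restricted to at most `5 p / 8 + 4` classes modulo each prime `p ≤ B ^ {3/4}` outside a small set: for the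
degrees `1` and `2`, as a conic has at most `p + 2` points modulo `p`, and for the degree `4` by the method
of Stepanov (the squarefree polynomial `f` of degree `4` modulo `p` has at most `5 p / 8` nonzero square
values). So there are at most `C B ^ {7/8}` such `y` by the larger sieve of Gallagher and the theorem of
Mertens.
-/

set_option autoImplicit false

namespace Pool.Agent.Results.MP_542436_nt.TotalDegreeFour

open MvPolynomial

/-- Normalised coprime integer coordinates: each point `[x₀ : x₁]` of the projective line over `ℚ`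
has exactly one such pair. -/
def Coord (x : ℤ × ℤ) : Prop := IsCoprime x.1 x.2 ∧ (0 < x.2 ∨ x.2 = 0 ∧ 0 < x.1)

/-- the logarithmic height `log max (|x₀|, |x₁|)` -/
noncomputable def height (x : ℤ × ℤ) : ℝ := Real.log (max x.1.natAbs x.2.natAbs : ℕ)

/-- `F` is bihomogeneous of bidegree `(a, b)` in `(X_0, X_1; X_2, X_3)` -/
def IsBihomogeneous (F : MvPolynomial (Fin 4) ℤ) (a b : ℕ) : Prop :=
  F.IsWeightedHomogeneous (![1, 1, 0, 0] : Fin 4 → ℕ) a ∧
    F.IsWeightedHomogeneous (![0, 0, 1, 1] : Fin 4 → ℕ) b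

/-- the polynomial over the field of rational numbers -/
noncomputable def overQ (F : MvPolynomial (Fin 4) ℤ) : MvPolynomial (Fin 4) ℚ :=
  F.map (Int.castRingHom ℚ)

/-- the value of `F` at the coordinates of a pair of points -/
noncomputable def value (F : MvPolynomial (Fin 4) ℤ) (P : (ℤ × ℤ) × (ℤ × ℤ)) : ℤ :=
  eval ![P.1.1, P.1.2, P.2.1, P.2.2] F

/-- The truncated counting function `N_D^{(1)}(P)` of `D = ∑ {F_j = 0}`, without the primes of `S`:
the local height of `D` at `p` is `v_p (∏ F_j (P)) log p`, so that `min (log p, ·)` of it is `log p`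
for the primes dividing `∏ F_j (P)`, and zero for the other ones. -/
noncomputable def truncated {ℓ : ℕ} (S : Finset ℕ) (F : Fin ℓ → MvPolynomial (Fin 4) ℤ)
    (P : (ℤ × ℤ) × (ℤ × ℤ)) : ℝ :=
  ∑ p ∈ (∏ j, value (F j) P).natAbs.primeFactors \ S, Real.log (p : ℝ)

/-- the pairs of points of heights at most `log B` which lie on `D` or for which
`N_D^{(1)} ≥ (∑ a_j - ε) h(α) + (∑ b_j - ε) h(β)` fails -/
def Exceptions {ℓ : ℕ} (S : Finset ℕ) (F : Fin ℓ → MvPolynomial (Fin 4) ℤ) (a b : Fin ℓ → ℕ)
    (ε B : ℝ) : Set ((ℤ × ℤ) × (ℤ × ℤ)) :=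
  {P | Coord P.1 ∧ Coord P.2 ∧ height P.1 ≤ Real.log B ∧ height P.2 ≤ Real.log B ∧
    ((∃ j, value (F j) P = 0) ∨
      truncated S F P < ((∑ j, (a j : ℝ)) - ε) * height P.1 +
        ((∑ j, (b j : ℝ)) - ε) * height P.2)}

/-- **The truncated counting function is almost always equal to the full height, up to
`ε (h(α) + h(β))`, if all the components have total degree at most four.** -/
theorem result {ℓ : ℕ} (F : Fin ℓ → MvPolynomial (Fin 4) ℤ) (a b : Fin ℓ → ℕ)
    (hbi : ∀ j, IsBihomogeneous (F j) (a j) (b j)) (hirr : ∀ j, Irreducible (overQ (F j)))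
    (hdist : ∀ i j, i ≠ j → ¬ Associated (overQ (F i)) (overQ (F j))) (hab : ∀ j, a j + b j ≤ 4)
    (S : Finset ℕ) (ε : ℝ) (hε : 0 < ε) :
    ∃ c C : ℝ, 0 < c ∧ ∀ B : ℝ, 1 ≤ B → (Exceptions S F a b ε B).Finite ∧
      ((Exceptions S F a b ε B).ncard : ℝ) ≤ C * B ^ ((4 : ℝ) - c) := by
  classical
  obtain ⟨c, hc, C, hC, h⟩ := Pool.Agent.Helper19K9.Tf.four_sparse F a b hbi hirr hdist hab S ε ε (by linarith)
  refine ⟨min c 4, C, lt_min hc (by norm_num), fun B hB => ?_⟩
  have hB0 : 0 < B := by linarith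
  set N : ℕ := ⌊B⌋₊ with hN
  have hN1 : 1 ≤ N := (Nat.one_le_floor_iff _).2 hB
  have hNB : (N : ℝ) ≤ B := Nat.floor_le hB0.le
  have hN1' : (1 : ℝ) ≤ N := by exact_mod_cast hN1
  let φ : (ℤ × ℤ) × (ℤ × ℤ) → (Fin 4 → ℤ) := fun P => ![P.1.1, P.1.2, P.2.1, P.2.2]
  have hφ : Function.Injective φ := by
    intro P Q hPQ
    have h0 := congrFun hPQ 0
    have h1 := congrFun hPQ 1
    have h2 := congrFun hPQ 2
    have h3 := congrFun hPQ 3
    exact Prod.ext (Prod.ext h0 h1) (Prod.ext h2 h3)
  -- the coordinates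
  have hco : ∀ x : ℤ × ℤ, Coord x → height x ≤ Real.log B → x.1.natAbs ≤ N ∧ x.2.natAbs ≤ N := by
    intro x hx hh
    have hpos : 0 < max x.1.natAbs x.2.natAbs := by
      by_contra hcon
      have h1 : x.1.natAbs = 0 := by
        have := le_max_left x.1.natAbs x.2.natAbs
        omega
      have h2 : x.2.natAbs = 0 := by
        have := le_max_right x.1.natAbs x.2.natAbs
        omega
      rw [Int.natAbs_eq_zero] at h1 h2
      rcases hx.2 with h3 | h3 <;> omega
    unfold height at hh
    have h1 : ((max x.1.natAbs x.2.natAbs : ℕ) : ℝ) ≤ B :=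
      (Real.log_le_log_iff (by exact_mod_cast hpos) hB0).1 hh
    have h2 : max x.1.natAbs x.2.natAbs ≤ N := Nat.le_floor h1
    exact ⟨(le_max_left _ _).trans h2, (le_max_right _ _).trans h2⟩
  set T : Set (Fin 4 → ℤ) := {x | x ∈ Pool.Agent.TH910.Voj.box 4 N ∧
    (IsCoprime (x 0) (x 1) ∧ IsCoprime (x 2) (x 3) ∧ ((∃ j, eval x (F j) = 0) ∨
        ∑ p ∈ (∏ j, eval x (F j)).natAbs.primeFactors \ S, Real.log (p : ℝ) <
          ((∑ j, (a j : ℝ)) - ε) * Real.log (max (x 0).natAbs (x 1).natAbs : ℕ) +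
          ((∑ j, (b j : ℝ)) - ε) * Real.log (max (x 2).natAbs (x 3).natAbs : ℕ)))} with hT
  have hTfin : T.Finite := Pool.Agent.TH910.Voj.finite_sub 4 N _
  have hmaps : Set.MapsTo φ (Exceptions S F a b ε B) T := by
    rintro P ⟨h1, h2, h3, h4, h5⟩
    obtain ⟨g0, g1⟩ := hco P.1 h1 h3
    obtain ⟨g2, g3⟩ := hco P.2 h2 h4
    refine ⟨?_, h1.1, h2.1, h5⟩
    rw [Pool.Agent.TH910.Voj.mem_box]
    intro i
    rw [Int.abs_eq_natAbs]
    fin_cases i
    · exact_mod_cast g0
    · exact_mod_cast g1
    · exact_mod_cast g2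
    · exact_mod_cast g3
  refine ⟨Set.Finite.of_finite_image (hTfin.subset (Set.image_subset_iff.2 hmaps))
    hφ.injOn, ?_⟩
  have h1 : (Exceptions S F a b ε B).ncard ≤ T.ncard :=
    Set.ncard_le_ncard_of_injOn φ hmaps hφ.injOn hTfin
  calc ((Exceptions S F a b ε B).ncard : ℝ) ≤ T.ncard := by exact_mod_cast h1
    _ ≤ C * (N : ℝ) ^ ((4 : ℕ) - c) := h N hN1
    _ ≤ C * (N : ℝ) ^ ((4 : ℝ) - min c 4) := by
        refine mul_le_mul_of_nonneg_left ?_ hC.le
        refine Real.rpow_le_rpow_of_exponent_le hN1' ?_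
        have := min_le_left c 4
        push_cast
        linarith
    _ ≤ C * B ^ ((4 : ℝ) - min c 4) := by
        refine mul_le_mul_of_nonneg_left ?_ hC.le
        refine Real.rpow_le_rpow (by linarith) hNB ?_
        have := min_le_right c 4
        linarith

end Pool.Agent.Results.MP_542436_nt.TotalDegreeFour
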